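import Pool.Agent.N859.QW.Stm

/-!
# Project QW (helper859), SFP (helper771): the finitely supported permutations of a countable infinite
set form a locally finite ICC group
-/

set_option autoImplicit false

namespace Pool.Agent.N771.QW

open Pool.Agent.N859.QW

open Classical in
theorem swap_mem {X : Type} (x y : X) : Equiv.swap x y ∈ SF X := by
  show {z | Equiv.swap x y z ≠ z}.Finite
  refine Set.Finite.subset (Set.toFinite {x, y}) ?_
  intro z hz
  by_contra h
  simp only [Set.mem_insert_iff, Set.mem_singleton_iff, not_or] at h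
  exact hz (Equiv.swap_apply_of_ne_of_ne h.1 h.2)

/-- the permutations fixing all points of index at least `n` -/
def F {X : Type} (f : X → ℕ) (n : ℕ) : Subgroup (SF X) where
  carrier := {σ | ∀ x, n ≤ f x → (σ : Equiv.Perm X) x = x}
  one_mem' := fun _ _ => rfl
  mul_mem' := by
    intro a b ha hb x hx
    show (a : Equiv.Perm X) ((b : Equiv.Perm X) x) = x
    rw [hb x hx, ha x hx]
  inv_mem' := by
    intro a ha x hx
    show (a : Equiv.Perm X)⁻¹ x = x
    rw [Equiv.Perm.inv_eq_iff_eq, ha x hx]

theorem F_finite {X : Type} (f : X → ℕ) (hf : Function.Injective f) (n : ℕ) : Finite (F f n) := by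
  have hA : Finite {x : X // f x < n} := by
    refine Finite.of_injective (fun x : {x : X // f x < n} => (⟨f x.1, x.2⟩ : Fin n)) ?_
    intro x y h
    have h1 : f x.1 = f y.1 := by simpa using h
    exact Subtype.ext (hf h1)
  have key : ∀ (σ : F f n) (x : X), f x < n → f (((σ : SF X) : Equiv.Perm X) x) < n := by
    intro σ x hx
    by_contra h
    have h1 := σ.2 _ (not_lt.1 h)
    have h2 : ((σ : SF X) : Equiv.Perm X) x = x := ((σ : SF X) : Equiv.Perm X).injective h1
    rw [h2] at h
    exact h hx
  refine Finite.of_injective (fun (σ : F f n) (x : {x : X // f x < n}) =>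
    (⟨((σ : SF X) : Equiv.Perm X) x.1, key σ x.1 x.2⟩ : {x : X // f x < n})) ?_
  intro σ τ h
  apply Subtype.ext
  apply Subtype.ext
  apply Equiv.ext
  intro x
  by_cases hx : f x < n
  · have := congrFun h ⟨x, hx⟩
    exact congrArg Subtype.val this
  · rw [σ.2 x (not_lt.1 hx), τ.2 x (not_lt.1 hx)]

theorem t_sfp : S_SFP := by
  classical
  intro X _ _
  refine ⟨?_, ?_, ?_⟩
  · obtain ⟨x0⟩ := (inferInstance : Nonempty X)
    refine Infinite.of_injective (fun y : X => (⟨Equiv.swap x0 y, swap_mem x0 y⟩ : SF X)) ?_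
    intro y z h
    have h1 : Equiv.swap x0 y = Equiv.swap x0 z := congrArg Subtype.val h
    have h2 := congrArg (fun e : Equiv.Perm X => e x0) h1
    simpa using h2
  · obtain ⟨f, hf⟩ := exists_injective_nat X
    refine ⟨F f, ?_, F_finite f hf, ?_⟩
    · intro m n hmn a ha x hx
      exact ha x (hmn.trans hx)
    · intro a
      obtain ⟨M, hM⟩ := (a.2.image f).bddAbove
      refine ⟨M + 1, fun x hx => ?_⟩
      by_contra h
      have := hM (Set.mem_image_of_mem f (show x ∈ {z | (a : Equiv.Perm X) z ≠ z} from h))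
      omega
  · intro a ha
    obtain ⟨x, hx⟩ : ∃ x, (a : Equiv.Perm X) x ≠ x := by
      by_contra h
      push Not at h
      exact ha (Subtype.ext (Equiv.ext h))
    have hinf : ({z | (a : Equiv.Perm X) z ≠ z}ᶜ : Set X).Infinite := a.2.infinite_compl
    have hax : (a : Equiv.Perm X) ((a : Equiv.Perm X) x) ≠ (a : Equiv.Perm X) x :=
      fun h => hx ((a : Equiv.Perm X).injective h)
    have key : ∀ y ∈ ({z | (a : Equiv.Perm X) z ≠ z}ᶜ : Set X),
        (((⟨Equiv.swap ((a : Equiv.Perm X) x) y, swap_mem _ _⟩ : SF X) * a *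
          (⟨Equiv.swap ((a : Equiv.Perm X) x) y, swap_mem _ _⟩ : SF X)⁻¹ : SF X) :
            Equiv.Perm X) x = y := by
      intro y hy
      have hya : (a : Equiv.Perm X) y = y := by
        by_contra h
        exact hy h
      have hyx : x ≠ y := by
        intro h
        rw [← h] at hya
        exact hx hya
      show Equiv.swap ((a : Equiv.Perm X) x) y ((a : Equiv.Perm X)
        ((Equiv.swap ((a : Equiv.Perm X) x) y)⁻¹ x)) = y
      rw [Equiv.swap_inv, Equiv.swap_apply_of_ne_of_ne hx.symm hyx, Equiv.swap_apply_left]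
    refine Set.infinite_of_injOn_mapsTo (s := ({z | (a : Equiv.Perm X) z ≠ z}ᶜ : Set X))
      (f := fun y => (⟨Equiv.swap ((a : Equiv.Perm X) x) y, swap_mem _ _⟩ : SF X) * a *
          (⟨Equiv.swap ((a : Equiv.Perm X) x) y, swap_mem _ _⟩ : SF X)⁻¹) ?_ ?_ hinf
    · intro y hy z hz h
      have h1 := key y hy
      have h2 := key z hz
      rw [← h1, ← h2]
      exact congrArg (fun e : SF X => (e : Equiv.Perm X) x) h
    · intro y _
      exact ⟨_, rfl⟩

end Pool.Agent.N771.QW
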